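import Pool.Agent.H.MP_5a3b5e_co.C

set_option autoImplicit false

namespace Pool.Agent.Results.MP_5a3b5e_co.Tors

open Pool.Agent.H.MP_5a3b5e_co

theorem result : ∃ l : Nat.Partition 14, l.parts = {4, 3, 2, 2, 1, 1, 1} ∧
    ∃ x : Hom (Proper l) 4, x ≠ 0 ∧ 2 • x = 0 :=
  ⟨lam, rfl, gen _ ww ww_mem ww_even Phi Phi_even Phi_ww⟩

end Pool.Agent.Results.MP_5a3b5e_co.Tors
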